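import Mathlib

namespace Pool.Agent.Results.MP_8ea6c6_co.NotGreedy

open Classical in
noncomputable def step (S : Finset ℕ) (s k : ℕ) : ℕ :=
  Nat.findGreatest (fun q => q * s ≤ k ∧ k - q * s ∈ AddSubmonoid.closure (S : Set ℕ)) k

noncomputable def run (S : Finset ℕ) : List ℕ → ℕ → ℕ
  | [], _ => 0
  | s :: l, k => step S s k + run S l (k - step S s k * s)

noncomputable def greedyCost (S : Finset ℕ) (k : ℕ) : ℕ := run S (S.sort (· ≥ ·)) k

noncomputable def minCost (S : Finset ℕ) (k : ℕ) : ℕ :=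
  sInf {c | ∃ a : ℕ → ℕ, ∑ s ∈ S, a s * s = k ∧ ∑ s ∈ S, a s = c}

def Greedy (S : Finset ℕ) : Prop :=
  ∀ k ∈ AddSubmonoid.closure (S : Set ℕ), greedyCost S k = minCost S k

lemma step_eq (S : Finset ℕ) (s k q : ℕ) (hs : 0 < s) (h1 : q * s ≤ k)
    (h2 : k - q * s ∈ AddSubmonoid.closure (S : Set ℕ))
    (h3 : ∀ r, q < r → r * s ≤ k → k - r * s ∉ AddSubmonoid.closure (S : Set ℕ)) :
    step S s k = q := by
  classical
  unfold step
  rw [Nat.findGreatest_eq_iff]
  refine ⟨le_trans (Nat.le_mul_of_pos_right q hs) h1, fun _ => ⟨h1, h2⟩, ?_⟩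
  intro r hr _ h
  exact h3 r hr h.1 h.2

lemma mem27 (k : ℕ) :
    k ∈ AddSubmonoid.closure ((({2, 7} : Finset ℕ)) : Set ℕ) ↔ ∃ a b, a * 2 + b * 7 = k := by
  rw [Finset.coe_pair, AddSubmonoid.mem_closure_pair]
  simp only [smul_eq_mul]

lemma mem257 (k : ℕ) :
    k ∈ AddSubmonoid.closure (((insert 5 {2, 7} : Finset ℕ)) : Set ℕ) ↔
      ∃ a b c, a * 2 + b * 5 + c * 7 = k := by
  constructor
  · intro h
    induction h using AddSubmonoid.closure_induction with
    | mem x hx =>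
      simp only [Finset.coe_insert, Finset.coe_singleton, Set.mem_insert_iff,
        Set.mem_singleton_iff] at hx
      rcases hx with rfl | rfl | rfl
      · exact ⟨0, 1, 0, rfl⟩
      · exact ⟨1, 0, 0, rfl⟩
      · exact ⟨0, 0, 1, rfl⟩
    | zero => exact ⟨0, 0, 0, rfl⟩
    | add x y _ _ hx hy =>
      obtain ⟨a, b, c, rfl⟩ := hx
      obtain ⟨a', b', c', rfl⟩ := hy
      exact ⟨a + a', b + b', c + c', by ring⟩
  · rintro ⟨a, b, c, rfl⟩
    have h : ∀ x ∈ (insert 5 {2, 7} : Finset ℕ), ∀ m : ℕ,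
        m * x ∈ AddSubmonoid.closure (((insert 5 {2, 7} : Finset ℕ)) : Set ℕ) := by
      intro x hx m
      exact AddSubmonoid.nsmul_mem _ (AddSubmonoid.subset_closure (Finset.mem_coe.mpr hx)) m
    exact add_mem (add_mem (h 2 (by decide) a) (h 5 (by decide) b)) (h 7 (by decide) c)

lemma sort27 : (({2, 7} : Finset ℕ)).sort (· ≥ ·) = [7, 2] := by
  apply List.Perm.eq_of_pairwise (le := (· ≥ ·))
  · intro a b _ _ h1 h2
    exact le_antisymm h2 h1
  · exact Finset.pairwise_sort _ _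
  · decide
  · rw [← Multiset.coe_eq_coe, Finset.sort_eq]
    decide

lemma sort257 : ((insert 5 {2, 7} : Finset ℕ)).sort (· ≥ ·) = [7, 5, 2] := by
  apply List.Perm.eq_of_pairwise (le := (· ≥ ·))
  · intro a b _ _ h1 h2
    exact le_antisymm h2 h1
  · exact Finset.pairwise_sort _ _
  · decide
  · rw [← Multiset.coe_eq_coe, Finset.sort_eq]
    decide

lemma greedy27 : Greedy {2, 7} := by
  intro k hk
  obtain ⟨a, b, rfl⟩ := (mem27 k).mp hk
  have e1' : step {2, 7} 7 (a * 2 + b * 7) = b + 2 * (a / 7) := by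
    apply step_eq _ _ _ _ (by norm_num)
    · omega
    · rw [mem27]
      exact ⟨a % 7, 0, by omega⟩
    · intro r hr h1 h
      obtain ⟨x, y, h⟩ := (mem27 _).mp h
      omega
  have e2 : step {2, 7} 2 (a * 2 + b * 7 - (b + 2 * (a / 7)) * 7) = a % 7 := by
    apply step_eq _ _ _ _ (by norm_num)
    · omega
    · rw [mem27]
      exact ⟨0, 0, by omega⟩
    · intro r hr h1 h
      omega
  unfold greedyCost
  rw [sort27]
  simp only [run]
  rw [e1', e2]
  symm
  apply IsLeast.csInf_eq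
  constructor
  · refine ⟨fun s => if s = 2 then a % 7 else b + 2 * (a / 7), ?_, ?_⟩
    · rw [Finset.sum_pair (by norm_num)]
      simp only [if_true, show ¬ (7 = 2) by norm_num, if_false]
      omega
    · rw [Finset.sum_pair (by norm_num)]
      simp only [if_true, show ¬ (7 = 2) by norm_num, if_false]
      omega
  · rintro c ⟨x, h1, h2⟩
    rw [Finset.sum_pair (by norm_num)] at h1 h2
    omega

lemma not257 : ¬ Greedy (insert 5 {2, 7}) := by
  intro h
  have h15 := h 15 ((mem257 15).mpr ⟨0, 3, 0, rfl⟩)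
  have e1 : step (insert 5 {2, 7}) 7 15 = 1 := by
    apply step_eq _ _ _ _ (by norm_num) (by norm_num) ((mem257 _).mpr ⟨4, 0, 0, rfl⟩)
    intro r hr h1 h
    obtain ⟨x, y, z, h⟩ := (mem257 _).mp h
    obtain rfl : r = 2 := by omega
    have hz : z = 0 := by omega
    have hy : y = 0 := by omega
    omega
  have e2 : step (insert 5 {2, 7}) 5 (15 - 1 * 7) = 0 := by
    apply step_eq _ _ _ _ (by norm_num) (by norm_num) ((mem257 _).mpr ⟨4, 0, 0, rfl⟩)
    intro r hr h1 h
    obtain ⟨x, y, z, h⟩ := (mem257 _).mp h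
    obtain rfl : r = 1 := by omega
    have hz : z = 0 := by omega
    have hy : y = 0 := by omega
    omega
  have e3 : step (insert 5 {2, 7}) 2 (15 - 1 * 7 - 0 * 5) = 4 := by
    apply step_eq _ _ _ _ (by norm_num) (by norm_num) ((mem257 _).mpr ⟨0, 0, 0, rfl⟩)
    intro r hr h1 h
    omega
  unfold greedyCost at h15
  rw [sort257] at h15
  simp only [run] at h15
  rw [e1, e2, e3] at h15
  have h3 : minCost (insert 5 {2, 7}) 15 ≤ 3 := by
    apply Nat.sInf_le
    exact ⟨fun s => if s = 5 then 3 else 0, by decide, by decide⟩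
  omega

theorem result : ¬ ∀ S : Finset ℕ, (∀ s ∈ S, 0 < s) → S.gcd id = 1 → 1 ∉ S → Greedy S →
    ∀ F : ℕ, FrobeniusNumber F (S : Set ℕ) → Greedy (insert F S) := by
  intro h
  refine not257 (h {2, 7} (by decide) (by decide) (by decide) greedy27 5 ⟨?_, ?_⟩)
  · intro h5
    obtain ⟨a, b, h5⟩ := (mem27 5).mp h5
    omega
  · intro k hk
    by_contra hlt
    apply hk
    rw [mem27]
    rcases Nat.even_or_odd' k with ⟨m, rfl | rfl⟩
    · exact ⟨m, 0, by omega⟩
    · exact ⟨m - 3, 1, by omega⟩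

end Pool.Agent.Results.MP_8ea6c6_co.NotGreedy
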